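import Pool.Agent.Lib.MP_7682a8_an.KB.Iface

/-!
Module PWA of the board kb_modules (MP_7682a8_an): the pointwise inequality near the origin.
-/

set_option autoImplicit false

namespace Pool.Agent.Lib.MP_7682a8_an.KB

theorem pwa : PwaStmt := by
  intro a b E M r e m hr hb hE hM hD
  set x : ℂ := a - 1 with hx
  set y : ℝ := ‖x‖ with hy
  have hy0 : 0 ≤ y := norm_nonneg _
  have he0 : 0 ≤ e := le_trans (norm_nonneg _) hE
  have hm0 : 0 ≤ m := le_trans (norm_nonneg _) hM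
  have ha : a = x + 1 := by rw [hx]; ring
  have ha1 : ‖a‖ ≤ 1 + y := by
    rw [ha]
    refine (norm_add_le _ _).trans ?_
    rw [norm_one, ← hy]
    linarith
  have ha2 : ‖a‖ ^ 2 = 1 + 2 * x.re + y ^ 2 := by
    rw [ha, hy, ← Complex.normSq_eq_norm_sq, ← Complex.normSq_eq_norm_sq, Complex.normSq_apply,
      Complex.normSq_apply]
    simp only [Complex.add_re, Complex.one_re, Complex.add_im, Complex.one_im]
    ring
  have hb1 : ‖b‖ ≤ r * (1 + y) := hb.trans (mul_le_mul_of_nonneg_left ha1 hr)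
  have hb0 : 0 ≤ ‖b‖ := norm_nonneg _
  have hb2 : ‖b‖ ^ 2 ≤ (r * (1 + y)) ^ 2 := pow_le_pow_left₀ hb0 hb1 2
  have hz : ‖E + 2 * x * M‖ ≤ e + 2 * y * m := by
    refine (norm_add_le _ _).trans ?_
    rw [norm_mul, norm_mul, ← hy]
    have h2 : ‖(2 : ℂ)‖ = 2 := by simp
    rw [h2]
    have : 2 * y * ‖M‖ ≤ 2 * y * m := mul_le_mul_of_nonneg_left hM (by positivity)
    linarith
  have hbz : ‖b * (E + 2 * x * M)‖ ≤ r * (1 + y) * (e + 2 * y * m) := by
    rw [norm_mul]
    exact mul_le_mul hb1 hz (norm_nonneg _) (by positivity)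
  have hre : -(r * (1 + y) * (e + 2 * y * m)) ≤ (b * (E + 2 * x * M)).re := by
    have h1 := Complex.abs_re_le_norm (b * (E + 2 * x * M))
    have h2 := abs_le.mp (h1.trans hbz)
    exact h2.1
  have hsq : -((r ^ 2 + r * e + 2 * r * m) ^ 2 / (1 - r ^ 2 - 4 * r * m)) ≤
      (1 - r ^ 2 - 4 * r * m) * y ^ 2 - 2 * (r ^ 2 + r * e + 2 * r * m) * y := by
    set D : ℝ := 1 - r ^ 2 - 4 * r * m with hDd
    set A : ℝ := r ^ 2 + r * e + 2 * r * m with hAd
    have h1 : D * y ^ 2 - 2 * A * y + A ^ 2 / D = (D * y - A) ^ 2 / D := by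
      field_simp
      ring
    have h2 : 0 ≤ (D * y - A) ^ 2 / D := div_nonneg (sq_nonneg _) hD.le
    linarith
  have hexp : (b * (E - 1 + 2 * (a - 1) * M)).re = (b * (E + 2 * x * M)).re - b.re := by
    rw [← hx]
    have : b * (E - 1 + 2 * x * M) = b * (E + 2 * x * M) - b := by ring
    rw [this, Complex.sub_re]
  have hexp2 : (a - b - 1).re = x.re - b.re := by
    rw [hx]
    simp only [Complex.sub_re, Complex.one_re]
    ring
  rw [hexp, hexp2, ha2]
  nlinarith [hb2, hre, hsq]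

end Pool.Agent.Lib.MP_7682a8_an.KB
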